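import Mathlib
import Pool.Agent.U773.BD.Dep

/-! The subspace theorem for a real matrix with algebraic entries and coordinates `D_l z_l`. -/

set_option autoImplicit false

open Finset Filter Topology

namespace Pool.Agent.U773.DB

open Pool.Agent.TH419.WI Pool.Agent.N671.OPN Pool.Agent.U773.SF Pool.Agent.U773.WN
  Pool.Agent.U773.RS Pool.Agent.U773.BD

theorem subR {n : ℕ} (hn : 1 ≤ n) {S : Finset ℕ} (hS : ∀ p ∈ S, p.Prime)
    (M : Matrix (Fin n) (Fin n) ℝ) (halg : ∀ i j, IsAlgebraic ℚ (M i j))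
    (hdet : ∀ v : Fin n → ℝ, M.mulVec v = 0 → v = 0) (c γ : ℝ) (hc : 0 ≤ c) (hγ : 0 < γ)
    (N : ℕ → ℝ) (hN : Tendsto N atTop atTop) (D : ℕ → Fin n → ℕ) (β : ℕ → Fin n → ℝ)
    (z : ℕ → Fin n → ℤ)
    (h1 : ∀ᶠ t in atTop, ∀ l, SU S (D t l) ∧ (D t l : ℝ) ≤ Real.exp (c * N t))
    (h2 : ∀ᶠ t in atTop, ∀ l, 0 < β t l)
    (h3 : ∀ᶠ t in atTop, ∀ l, |Real.log (β t l)| ≤ c * N t)
    (h4 : ∀ᶠ t in atTop, (∏ l, β t l) * Real.exp (γ * N t) ≤ ∏ l, (D t l : ℝ))
    (h5 : ∀ᶠ t in atTop, z t ≠ 0)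
    (h6 : ∀ᶠ t in atTop, ∀ l, |∑ j, M l j * ((D t j : ℝ) * (z t j : ℝ))| ≤ β t l) :
    ∃ y : Fin n → ℤ, y ≠ 0 ∧ ∃ᶠ t in atTop, ∑ l, y l * ((D t l : ℤ) * z t l) = 0 := by
  classical
  obtain ⟨A, d, hd, hfin, hA⟩ := exists_order
    (fun k : Fin (n * n) => M (finProdFinEquiv.symm k).1 (finProdFinEquiv.symm k).2)
    (fun k => halg _ _)
  have hA' : ∀ i j, (d : ℝ) * M i j ∈ A := by
    intro i j
    have := hA (finProdFinEquiv (i, j))
    simpa using this
  have hdR : (d : ℝ) ≠ 0 := by exact_mod_cast hd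
  have hdp : 0 < |(d : ℝ)| := abs_pos.2 hdR
  let φ : A →+* ℂ := (Complex.ofRealHom).comp A.val.toRingHom
  have hφ : ∀ a : A, φ a = ((a : ℝ) : ℂ) := fun a => rfl
  have hmM : M.det ≠ 0 := by
    intro h0
    obtain ⟨v, hv, hv0⟩ := Matrix.exists_mulVec_eq_zero_iff.2 h0
    exact hv (hdet v hv0)
  set M0 : Matrix (Fin n) (Fin n) A := fun i j => ⟨(d : ℝ) * M i j, hA' i j⟩ with hM0
  have hdetM : M0.det ≠ 0 := by
    intro h0
    have h7 : ((M0.det : A) : ℝ) = ((d : ℝ) • M).det := by
      have := A.val.toRingHom.map_det M0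
      rw [show A.val.toRingHom M0.det = ((M0.det : A) : ℝ) from rfl] at this
      rw [this]
      congr 1
    rw [h0, Matrix.det_smul] at h7
    have h8 : (d : ℝ) ^ (Fintype.card (Fin n)) * M.det ≠ 0 := mul_ne_zero (pow_ne_zero _ hdR) hmM
    exact h8 h7.symm
  set e : ℕ → Fin n → Fin S.card → ℕ := fun t l i => (D t l).factorization (gS S i) with he
  have hmon : ∀ t l, SU S (D t l) → mon (gS S) (e t l) = (D t l : ℤ) := fun t l h => h.mon hS
  have hlogD : ∀ t l, SU S (D t l) → 0 ≤ Real.log (D t l : ℝ) := fun t l h =>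
    Real.log_nonneg (by exact_mod_cast h.1)
  have hnR : (1 : ℝ) ≤ n := by exact_mod_cast hn
  have hN0 := hN.eventually_ge_atTop 0
  obtain ⟨y, hy, hfr⟩ := subDiag A φ hn (gS S) (gS_pos hS) M0 hdetM
    (fun i j => Complex.ofReal_im _) (n * c + c + 1) (γ / 2)
    (by have : 0 ≤ (n : ℝ) * c := by positivity
        linarith) (by positivity) N hN e (fun t l => |(d : ℝ)| * β t l) z
    (by
      filter_upwards [h1, hN0] with t ht hNt
      calc ∑ l, Real.log ((mon (gS S) (e t l) : ℤ) : ℝ) ≤ ∑ l : Fin n, c * N t := by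
            refine Finset.sum_le_sum fun l _ => ?_
            rw [hmon t l (ht l).1, Int.cast_natCast]
            rw [← Real.log_exp (c * N t)]
            refine Real.log_le_log ?_ (ht l).2
            exact_mod_cast (ht l).1.1
        _ = n * c * N t := by
            rw [Finset.sum_const, Finset.card_univ, Fintype.card_fin, nsmul_eq_mul]
            ring
        _ ≤ (n * c + c + 1) * N t := by
            have : 0 ≤ c * N t := mul_nonneg hc hNt
            nlinarith)
    (by
      filter_upwards [h2] with t ht l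
      exact mul_pos hdp (ht l))
    (by
      filter_upwards [h2, h3, hN0, hN.eventually_ge_atTop |Real.log (|(d : ℝ)|)|]
        with t ht ht3 hNt hd5 l
      rw [Real.log_mul hdp.ne' (ht l).ne']
      refine (abs_add_le _ _).trans ?_
      have h7 : 0 ≤ (n : ℝ) * c * N t := by positivity
      have := ht3 l
      linarith)
    (by
      filter_upwards [h1, h2, h4, hN0, (hN.const_mul_atTop
        (show 0 < γ / 2 by positivity)).eventually_ge_atTop (n * |Real.log (|(d : ℝ)|)|)]
        with t ht ht2 ht4 hNt hd5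
      have h7 : ∑ l, Real.log (|(d : ℝ)| * β t l) = n * Real.log |(d : ℝ)| +
          ∑ l, Real.log (β t l) := by
        rw [Finset.sum_congr rfl (fun l _ => Real.log_mul hdp.ne' (ht2 l).ne'),
          Finset.sum_add_distrib, Finset.sum_const, Finset.card_univ, Fintype.card_fin,
          nsmul_eq_mul]
      have h8 : ∑ l, Real.log ((mon (gS S) (e t l) : ℤ) : ℝ) = ∑ l, Real.log (D t l : ℝ) :=
        Finset.sum_congr rfl fun l _ => by rw [hmon t l (ht l).1, Int.cast_natCast]
      rw [h7, h8]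
      have hP : 0 < ∏ l, β t l := Finset.prod_pos fun l _ => ht2 l
      have h9 := Real.log_le_log (by positivity) ht4
      rw [Real.log_mul hP.ne' (Real.exp_pos _).ne', Real.log_exp, Real.log_prod
        (fun l _ => (ht2 l).ne'), Real.log_prod (fun l _ => by
          have := (ht l).1.1
          positivity)] at h9
      have h10 := mul_le_mul_of_nonneg_left (le_abs_self (Real.log |(d : ℝ)|))
        (by linarith : (0 : ℝ) ≤ n)
      linarith)
    h5
    (by
      filter_upwards [h1, h6] with t ht ht6 l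
      have h7 : φ (∑ j, M0 l j * ((mon (gS S) (e t j) * z t j : ℤ) : A)) =
          (((d : ℝ) * ∑ j, M l j * ((D t j : ℝ) * (z t j : ℝ)) : ℝ) : ℂ) := by
        rw [map_sum, Finset.mul_sum, Complex.ofReal_sum]
        refine Finset.sum_congr rfl fun j _ => ?_
        rw [map_mul, map_intCast, hmon t j (ht j).1, hφ]
        simp only [hM0]
        push_cast
        ring
      rw [h7, Complex.norm_real, Real.norm_eq_abs, abs_mul]
      exact mul_le_mul_of_nonneg_left (ht6 l) hdp.le)
  refine ⟨y, hy, ?_⟩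
  refine (hfr.and_eventually h1).mono fun t ht => ?_
  rw [← ht.1]
  refine Finset.sum_congr rfl fun l _ => ?_
  rw [hmon t l (ht.2 l).1]

end Pool.Agent.U773.DB
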