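import Mathlib
import Pool.Agent.U773.DB.Sub

/-! Digit blocks against integer points with small linear forms: the core. -/

set_option autoImplicit false

open Finset Filter Topology

namespace Pool.Agent.U773.DB

open Pool.Agent.TH419.WI Pool.Agent.N671.OPN Pool.Agent.U773.SF Pool.Agent.U773.WN
  Pool.Agent.U773.RS Pool.Agent.U773.BD

lemma SU_one (S : Finset ℕ) : SU S 1 :=
  ⟨one_pos, fun p hp h => absurd (Nat.dvd_one.1 h) hp.ne_one⟩

/-- first step: a relation between the unit, the multiple of `D` and the point -/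
theorem step1 {k : ℕ} {S : Finset ℕ} (hS : ∀ p ∈ S, p.Prime) {x : ℝ} (hx : IsAlgebraic ℚ x)
    (L : Matrix (Fin k) (Fin k) ℝ) (hL : ∀ i j, IsAlgebraic ℚ (L i j))
    (hdet : ∀ v : Fin k → ℝ, L.mulVec v = 0 → v = 0) (η : Fin k → ℝ)
    (hη : ∀ i, IsAlgebraic ℚ (η i)) (C ε : ℝ) (hC : 0 ≤ C) (hε : 0 < ε) (N : ℕ → ℝ)
    (hN : Tendsto N atTop atTop) (hN0 : ∀ t, 0 ≤ N t) (u D : ℕ → ℕ) (M : ℕ → ℤ)
    (Q : ℕ → Fin k → ℤ)
    (β : ℕ → Fin k → ℝ) (E : ℕ → ℝ)
    (hu : ∀ t, SU S (u t) ∧ (u t : ℝ) ≤ Real.exp (C * N t)) (hD : ∀ t, SU S (D t))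
    (hDu : ∀ t, D t ≤ u t) (hE : ∀ t, 1 ≤ E t ∧ E t ≤ Real.exp (C * N t))
    (hF : ∀ t, |x * u t - D t * M t - ∑ i, η i * Q t i| ≤ E t)
    (hβ : ∀ t l, 0 < β t l ∧ |Real.log (β t l)| ≤ C * N t)
    (hLQ : ∀ t l, |∑ j, L l j * (Q t j : ℝ)| ≤ β t l)
    (hsm : ∀ t, E t * (∏ l, β t l) * Real.exp (ε * N t) ≤ D t) :
    ∃ y : Fin (k + 2) → ℤ, y ≠ 0 ∧ ∃ᶠ t in atTop,
      y 0 * u t + y 1 * (D t * M t) + ∑ i : Fin k, y i.succ.succ * Q t i = 0 := by
  classical
  set M1 : Matrix (Fin (k + 2)) (Fin (k + 2)) ℝ := Fin.cons (Fin.cons 1 0)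
    (Fin.cons (Fin.cons x (Fin.cons (-1) (fun j => -η j)))
      (fun i => Fin.cons 0 (Fin.cons 0 (L i)))) with hM1
  have hu1 : ∀ t, (1 : ℝ) ≤ u t := fun t => by exact_mod_cast (hu t).1.1
  obtain ⟨y, hy, hfr⟩ := subR (n := k + 2) (by omega) hS M1 (by
      intro i j
      refine Fin.cases ?_ (fun i => ?_) i
      · refine Fin.cases ?_ (fun j => ?_) j
        · simp only [hM1, Fin.cons_zero]
          exact isAlgebraic_one
        · simp only [hM1, Fin.cons_zero, Fin.cons_succ, Pi.zero_apply]
          exact isAlgebraic_zero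
      · refine Fin.cases ?_ (fun i => ?_) i
        · refine Fin.cases ?_ (fun j => ?_) j
          · simpa [hM1] using hx
          · refine Fin.cases ?_ (fun j => ?_) j
            · simp only [hM1, Fin.cons_zero, Fin.cons_succ]
              exact isAlgebraic_one.neg
            · simp only [hM1, Fin.cons_zero, Fin.cons_succ]
              exact (hη j).neg
        · refine Fin.cases ?_ (fun j => ?_) j
          · simp only [hM1, Fin.cons_zero, Fin.cons_succ]
            exact isAlgebraic_zero
          · refine Fin.cases ?_ (fun j => ?_) j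
            · simp only [hM1, Fin.cons_zero, Fin.cons_succ]
              exact isAlgebraic_zero
            · simp only [hM1, Fin.cons_succ]
              exact hL i j)
    (by
      intro v hv
      have r0 := congrFun hv 0
      have r1 := congrFun hv (Fin.succ 0)
      have r2 := fun i : Fin k => congrFun hv i.succ.succ
      simp only [Matrix.mulVec, dotProduct, hM1, Fin.sum_univ_succ, Fin.cons_zero, Fin.cons_succ,
        Pi.zero_apply, zero_mul, Finset.sum_const_zero, add_zero, one_mul, zero_add] at r0 r1 r2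
      have h2 : (fun i : Fin k => v i.succ.succ) = 0 := hdet _ (by
        funext i
        exact r2 i)
      have h2' : ∀ i : Fin k, v i.succ.succ = 0 := fun i => congrFun h2 i
      simp only [h2', mul_zero, Finset.sum_const_zero, add_zero, r0, zero_add] at r1
      funext i
      refine Fin.cases ?_ (fun i => ?_) i
      · exact r0
      · refine Fin.cases ?_ (fun i => ?_) i
        · simpa using r1
        · exact h2' i)
    (C + 1) (ε / 2) (by linarith) (by positivity) N hN
    (fun t => Fin.cons (u t) (Fin.cons (D t) (fun _ => 1)))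
    (fun t => Fin.cons (u t : ℝ) (Fin.cons (E t) (β t)))
    (fun t => Fin.cons 1 (Fin.cons (M t) (Q t)))
    (by
      refine Eventually.of_forall fun t l => ?_
      have h0 : C * N t ≤ (C + 1) * N t := by nlinarith [hN0 t]
      have h0' : 0 ≤ (C + 1) * N t := mul_nonneg (by linarith) (hN0 t)
      refine Fin.cases ?_ (fun l => ?_) l
      · simp only [Fin.cons_zero]
        exact ⟨(hu t).1, (hu t).2.trans (Real.exp_le_exp.2 h0)⟩
      · refine Fin.cases ?_ (fun l => ?_) l
        · simp only [Fin.cons_zero, Fin.cons_succ]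
          refine ⟨hD t, le_trans ?_ ((hu t).2.trans (Real.exp_le_exp.2 h0))⟩
          exact_mod_cast hDu t
        · simp only [Fin.cons_succ]
          refine ⟨SU_one S, ?_⟩
          rw [Nat.cast_one]
          exact Real.one_le_exp h0')
    (by
      refine Eventually.of_forall fun t l => ?_
      refine Fin.cases ?_ (fun l => ?_) l
      · simp only [Fin.cons_zero]
        linarith [hu1 t]
      · refine Fin.cases ?_ (fun l => ?_) l
        · simp only [Fin.cons_zero, Fin.cons_succ]
          linarith [(hE t).1]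
        · simp only [Fin.cons_succ]
          exact (hβ t l).1)
    (by
      refine Eventually.of_forall fun t l => ?_
      have h0 : C * N t ≤ (C + 1) * N t := by nlinarith [hN0 t]
      have hlog : ∀ v : ℝ, 1 ≤ v → v ≤ Real.exp (C * N t) → |Real.log v| ≤ (C + 1) * N t := by
        intro v h1 h2
        rw [abs_of_nonneg (Real.log_nonneg h1)]
        exact ((Real.log_le_iff_le_exp (by linarith)).2 h2).trans h0
      refine Fin.cases ?_ (fun l => ?_) l
      · simp only [Fin.cons_zero]
        exact hlog _ (hu1 t) (hu t).2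
      · refine Fin.cases ?_ (fun l => ?_) l
        · simp only [Fin.cons_zero, Fin.cons_succ]
          exact hlog _ (hE t).1 (hE t).2
        · simp only [Fin.cons_succ]
          exact (hβ t l).2.trans h0)
    (by
      refine Eventually.of_forall fun t => ?_
      rw [Fin.prod_univ_succ, Fin.prod_univ_succ, Fin.prod_univ_succ, Fin.prod_univ_succ]
      simp only [Fin.cons_zero, Fin.cons_succ, Nat.cast_one, Finset.prod_const_one, mul_one]
      have h1 : Real.exp (ε / 2 * N t) ≤ Real.exp (ε * N t) := by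
        apply Real.exp_le_exp.2
        nlinarith [hN0 t]
      have h2 : 0 ≤ ∏ l, β t l := Finset.prod_nonneg fun l _ => (hβ t l).1.le
      have h3 := hsm t
      have h4 : (E t * ∏ l, β t l) * Real.exp (ε / 2 * N t) ≤ D t :=
        (mul_le_mul_of_nonneg_left h1 (mul_nonneg (by linarith [(hE t).1]) h2)).trans h3
      calc (u t : ℝ) * (E t * ∏ l, β t l) * Real.exp (ε / 2 * N t)
          = u t * ((E t * ∏ l, β t l) * Real.exp (ε / 2 * N t)) := by ring
        _ ≤ u t * D t := mul_le_mul_of_nonneg_left h4 (by linarith [hu1 t]))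
    (by
      refine Eventually.of_forall fun t h0 => ?_
      have := congrFun h0 0
      simp at this)
    (by
      refine Eventually.of_forall fun t l => ?_
      refine Fin.cases ?_ (fun l => ?_) l
      · simp only [hM1, Fin.sum_univ_succ, Fin.cons_zero, Fin.cons_succ, Pi.zero_apply,
          zero_mul, Finset.sum_const_zero, add_zero, one_mul, Int.cast_one, mul_one]
        rw [abs_of_nonneg (Nat.cast_nonneg _)]
      · refine Fin.cases ?_ (fun l => ?_) l
        · simp only [hM1, Fin.sum_univ_succ, Fin.cons_zero, Fin.cons_succ, Int.cast_one, mul_one,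
            Nat.cast_one, one_mul]
          refine le_trans (le_of_eq ?_) (hF t)
          congr 1
          have : ∑ i : Fin k, -η i * (Q t i : ℝ) = -∑ i, η i * Q t i := by
            rw [← Finset.sum_neg_distrib]
            exact Finset.sum_congr rfl fun i _ => by ring
          rw [this]
          ring
        · simp only [hM1, Fin.sum_univ_succ, Fin.cons_zero, Fin.cons_succ, Int.cast_one, mul_one,
            Nat.cast_one, one_mul, zero_mul, zero_add]
          exact hLQ t l)
  refine ⟨y, hy, hfr.mono fun t ht => ?_⟩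
  rw [Fin.sum_univ_succ, Fin.sum_univ_succ] at ht
  simp only [Fin.cons_zero, Fin.cons_succ, Nat.cast_one, mul_one, one_mul] at ht
  have h1 : y 1 = y (Fin.succ 0) := rfl
  rw [h1]
  linarith

/-- second step: elimination of the multiple of `D` -/
theorem step2 {k : ℕ} {S : Finset ℕ} (hS : ∀ p ∈ S, p.Prime) {x : ℝ} (hx : IsAlgebraic ℚ x)
    (hxi : Irrational x)
    (L : Matrix (Fin k) (Fin k) ℝ) (hL : ∀ i j, IsAlgebraic ℚ (L i j))
    (hdet : ∀ v : Fin k → ℝ, L.mulVec v = 0 → v = 0) (η : Fin k → ℝ)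
    (hη : ∀ i, IsAlgebraic ℚ (η i)) (C ε : ℝ) (hC : 0 ≤ C) (hε : 0 < ε) (N : ℕ → ℝ)
    (hN : Tendsto N atTop atTop) (hN0 : ∀ t, 0 ≤ N t) (u : ℕ → ℕ) (K : ℕ → ℤ)
    (Q : ℕ → Fin k → ℤ)
    (β : ℕ → Fin k → ℝ) (E : ℕ → ℝ)
    (hu : ∀ t, SU S (u t) ∧ (u t : ℝ) ≤ Real.exp (C * N t))
    (hE : ∀ t, 1 ≤ E t ∧ E t ≤ Real.exp (C * N t))
    (hF : ∀ t, |x * u t - K t - ∑ i, η i * Q t i| ≤ E t)
    (hβ : ∀ t l, 0 < β t l ∧ |Real.log (β t l)| ≤ C * N t)
    (hLQ : ∀ t l, |∑ j, L l j * (Q t j : ℝ)| ≤ β t l)
    (hsm : ∀ t, E t * (∏ l, β t l) * Real.exp (ε * N t) ≤ u t)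
    (y : Fin (k + 2) → ℤ) (hy1 : y 1 ≠ 0)
    (hrel : ∀ t, y 0 * u t + y 1 * K t + ∑ i : Fin k, y i.succ.succ * Q t i = 0) :
    ∃ w : Fin (k + 1) → ℤ, w ≠ 0 ∧ ∃ᶠ t in atTop,
      w 0 * u t + ∑ i : Fin k, w i.succ * Q t i = 0 := by
  classical
  have hy1R : ((y 1 : ℤ) : ℝ) ≠ 0 := by exact_mod_cast hy1
  set c0 : ℝ := x + (y 0 : ℝ) / (y 1 : ℝ) with hc0
  have hc0alg : IsAlgebraic ℚ c0 := by
    refine hx.add ?_
    have : ((y 0 : ℝ) / (y 1 : ℝ)) = (((y 0 : ℚ) / (y 1 : ℚ) : ℚ) : ℝ) := by push_cast; rfl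
    rw [this]
    exact isAlgebraic_algebraMap _
  have hc0ne : c0 ≠ 0 := by
    intro h0
    apply hxi
    refine ⟨-((y 0 : ℚ) / (y 1 : ℚ)), ?_⟩
    push_cast
    rw [hc0] at h0
    linarith
  have hratalg : ∀ a : ℤ, IsAlgebraic ℚ ((a : ℝ) / (y 1 : ℝ)) := by
    intro a
    have : ((a : ℝ) / (y 1 : ℝ)) = (((a : ℚ) / (y 1 : ℚ) : ℚ) : ℝ) := by push_cast; rfl
    rw [this]
    exact isAlgebraic_algebraMap _
  set M2 : Matrix (Fin (k + 1)) (Fin (k + 1)) ℝ := Fin.cons
    (Fin.cons c0 (fun j => (y j.succ.succ : ℝ) / (y 1 : ℝ) - η j))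
      (fun i => Fin.cons 0 (L i)) with hM2
  have hu1 : ∀ t, (1 : ℝ) ≤ u t := fun t => by exact_mod_cast (hu t).1.1
  obtain ⟨w, hw, hfr⟩ := subR (n := k + 1) (by omega) hS M2 (by
      intro i j
      refine Fin.cases ?_ (fun i => ?_) i
      · refine Fin.cases ?_ (fun j => ?_) j
        · simpa [hM2] using hc0alg
        · simp only [hM2, Fin.cons_zero, Fin.cons_succ]
          exact (hratalg _).sub (hη j)
      · refine Fin.cases ?_ (fun j => ?_) j
        · simp only [hM2, Fin.cons_zero, Fin.cons_succ]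
          exact isAlgebraic_zero
        · simp only [hM2, Fin.cons_succ]
          exact hL i j)
    (by
      intro v hv
      have r0 := congrFun hv 0
      have r2 := fun i : Fin k => congrFun hv i.succ
      simp only [Matrix.mulVec, dotProduct, hM2, Fin.sum_univ_succ, Fin.cons_zero, Fin.cons_succ,
        Pi.zero_apply, zero_mul, Finset.sum_const_zero, add_zero, zero_add] at r0 r2
      have h2 : (fun i : Fin k => v i.succ) = 0 := hdet _ (by
        funext i
        exact r2 i)
      have h2' : ∀ i : Fin k, v i.succ = 0 := fun i => congrFun h2 i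
      simp only [h2', mul_zero, Finset.sum_const_zero, add_zero] at r0
      funext i
      refine Fin.cases ?_ (fun i => ?_) i
      · exact (mul_eq_zero.1 r0).resolve_left hc0ne
      · exact h2' i)
    (C + 1) (ε / 2) (by linarith) (by positivity) N hN
    (fun t => Fin.cons (u t) (fun _ => 1))
    (fun t => Fin.cons (E t) (β t))
    (fun t => Fin.cons 1 (Q t))
    (by
      refine Eventually.of_forall fun t l => ?_
      have h0 : C * N t ≤ (C + 1) * N t := by nlinarith [hN0 t]
      have h0' : 0 ≤ (C + 1) * N t := mul_nonneg (by linarith) (hN0 t)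
      refine Fin.cases ?_ (fun l => ?_) l
      · simp only [Fin.cons_zero]
        exact ⟨(hu t).1, (hu t).2.trans (Real.exp_le_exp.2 h0)⟩
      · simp only [Fin.cons_succ]
        refine ⟨SU_one S, ?_⟩
        rw [Nat.cast_one]
        exact Real.one_le_exp h0')
    (by
      refine Eventually.of_forall fun t l => ?_
      refine Fin.cases ?_ (fun l => ?_) l
      · simp only [Fin.cons_zero]
        linarith [(hE t).1]
      · simp only [Fin.cons_succ]
        exact (hβ t l).1)
    (by
      refine Eventually.of_forall fun t l => ?_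
      have h0 : C * N t ≤ (C + 1) * N t := by nlinarith [hN0 t]
      refine Fin.cases ?_ (fun l => ?_) l
      · simp only [Fin.cons_zero]
        rw [abs_of_nonneg (Real.log_nonneg (hE t).1)]
        exact ((Real.log_le_iff_le_exp (by linarith [(hE t).1])).2 (hE t).2).trans h0
      · simp only [Fin.cons_succ]
        exact (hβ t l).2.trans h0)
    (by
      refine Eventually.of_forall fun t => ?_
      rw [Fin.prod_univ_succ, Fin.prod_univ_succ]
      simp only [Fin.cons_zero, Fin.cons_succ, Nat.cast_one, Finset.prod_const_one, mul_one]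
      have h1 : Real.exp (ε / 2 * N t) ≤ Real.exp (ε * N t) := by
        apply Real.exp_le_exp.2
        nlinarith [hN0 t]
      have h2 : 0 ≤ ∏ l, β t l := Finset.prod_nonneg fun l _ => (hβ t l).1.le
      exact (mul_le_mul_of_nonneg_left h1 (mul_nonneg (by linarith [(hE t).1]) h2)).trans (hsm t))
    (by
      refine Eventually.of_forall fun t h0 => ?_
      have := congrFun h0 0
      simp at this)
    (by
      refine Eventually.of_forall fun t l => ?_
      refine Fin.cases ?_ (fun l => ?_) l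
      · simp only [hM2, Fin.sum_univ_succ, Fin.cons_zero, Fin.cons_succ, Int.cast_one, mul_one,
            Nat.cast_one, one_mul]
        refine le_trans (le_of_eq ?_) (hF t)
        congr 1
        have h3 : (y 0 : ℝ) * u t + (y 1 : ℝ) * K t + ∑ i : Fin k, (y i.succ.succ : ℝ) * Q t i =
            0 := by exact_mod_cast hrel t
        have h4 : ∑ i : Fin k, ((y i.succ.succ : ℝ) / (y 1 : ℝ) - η i) * (Q t i : ℝ) =
            (∑ i : Fin k, (y i.succ.succ : ℝ) * Q t i) / (y 1 : ℝ) - ∑ i, η i * Q t i := by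
          rw [Finset.sum_div, ← Finset.sum_sub_distrib]
          exact Finset.sum_congr rfl fun i _ => by ring
        rw [h4]
        have h5 : ∑ i : Fin k, (y i.succ.succ : ℝ) * Q t i =
            -((y 0 : ℝ) * u t + (y 1 : ℝ) * K t) := by linarith
        rw [h5, hc0]
        field_simp
        ring
      · simp only [hM2, Fin.sum_univ_succ, Fin.cons_zero, Fin.cons_succ, Int.cast_one, mul_one,
            Nat.cast_one, one_mul, zero_mul, zero_add]
        exact hLQ t l)
  refine ⟨w, hw, hfr.mono fun t ht => ?_⟩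
  rw [Fin.sum_univ_succ] at ht
  simp only [Fin.cons_zero, Fin.cons_succ, Nat.cast_one, mul_one, one_mul] at ht
  linarith

end Pool.Agent.U773.DB
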