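import Mathlib
import Pool.Agent.U773.DB.Core

/-! Digit blocks against integer points with small linear forms: third step and conclusion. -/

set_option autoImplicit false

open Finset Filter Topology

namespace Pool.Agent.U773.DB

open Pool.Agent.TH419.WI Pool.Agent.N671.OPN Pool.Agent.U773.SF Pool.Agent.U773.WN
  Pool.Agent.U773.RS Pool.Agent.U773.BD

/-- third step: a unit cannot be a linear form in the coordinates of the point -/
theorem step3 {k : ℕ} {S : Finset ℕ} (hS : ∀ p ∈ S, p.Prime)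
    (L : Matrix (Fin k) (Fin k) ℝ) (hL : ∀ i j, IsAlgebraic ℚ (L i j))
    (hdet : ∀ v : Fin k → ℝ, L.mulVec v = 0 → v = 0) (C ε : ℝ) (hC : 0 ≤ C) (hε : 0 < ε) (N : ℕ → ℝ)
    (hN : Tendsto N atTop atTop) (hN0 : ∀ t, 0 ≤ N t) (u : ℕ → ℕ)
    (Q : ℕ → Fin k → ℤ) (β : ℕ → Fin k → ℝ)
    (hu : ∀ t, SU S (u t) ∧ (u t : ℝ) ≤ Real.exp (C * N t))
    (hβ : ∀ t l, 0 < β t l ∧ |Real.log (β t l)| ≤ C * N t)
    (hLQ : ∀ t l, |∑ j, L l j * (Q t j : ℝ)| ≤ β t l)
    (hsm : ∀ t, (∏ l, β t l) * Real.exp (ε * N t) ≤ u t)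
    (norel : ∀ c : Fin k → ℤ, c ≠ 0 → ∀ᶠ t in atTop, ∑ i, c i * Q t i ≠ 0)
    (w : Fin (k + 1) → ℤ) (hw : w ≠ 0)
    (hrel : ∀ t, w 0 * u t + ∑ i : Fin k, w i.succ * Q t i = 0) : False := by
  classical
  have hu1 : ∀ t, (1 : ℤ) ≤ u t := fun t => by exact_mod_cast (hu t).1.1
  by_cases hw0 : w 0 = 0
  · have hc : (fun i : Fin k => w i.succ) ≠ 0 := by
      intro h
      apply hw
      funext i
      refine Fin.cases ?_ (fun i => ?_) i
      · exact hw0
      · exact congrFun h i
    obtain ⟨t, ht⟩ := (norel _ hc).exists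
    have := hrel t
    rw [hw0, zero_mul, zero_add] at this
    exact ht this
  obtain ⟨j0, hj0⟩ : ∃ j : Fin k, w j.succ ≠ 0 := by
    by_contra hcon
    push Not at hcon
    have h1 := hrel 0
    simp only [hcon, zero_mul, Finset.sum_const_zero, add_zero] at h1
    rcases mul_eq_zero.1 h1 with h | h
    · exact hw0 h
    · have := hu1 0
      omega
  set a : ℤ := w 0 with ha
  set s : Fin k → ℤ := fun j => w j.succ with hs
  have hsj : s j0 ≠ 0 := hj0
  have hsR : (s j0 : ℝ) ≠ 0 := by exact_mod_cast hsj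
  have haR : (a : ℝ) ≠ 0 := by exact_mod_cast hw0
  set M3 : Matrix (Fin k) (Fin k) ℝ := fun i l => if l = j0 then -(L i j0 * ((a : ℝ) / (s j0 : ℝ)))
    else L i l - L i j0 * ((s l : ℝ) / (s j0 : ℝ)) with hM3
  have hrat : ∀ c : ℤ, IsAlgebraic ℚ ((c : ℝ) / (s j0 : ℝ)) := by
    intro c
    have : ((c : ℝ) / (s j0 : ℝ)) = (((c : ℚ) / (s j0 : ℚ) : ℚ) : ℝ) := by push_cast; rfl
    rw [this]
    exact isAlgebraic_algebraMap _
  -- the change of coordinates
  have hchg : ∀ (v v' : Fin k → ℝ), (∀ l, l ≠ j0 → v' l = v l) →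
      ((a : ℝ) * v j0 + ∑ l, (s l : ℝ) * v' l = 0) → ∀ i, ∑ l, M3 i l * v l = ∑ l, L i l * v' l := by
    intro v v' h1 h2 i
    rw [← Finset.add_sum_erase univ (fun l => M3 i l * v l) (mem_univ j0),
      ← Finset.add_sum_erase univ (fun l => L i l * v' l) (mem_univ j0)]
    rw [← Finset.add_sum_erase univ (fun l => (s l : ℝ) * v' l) (mem_univ j0)] at h2
    have h3 : ∑ l ∈ univ.erase j0, M3 i l * v l = ∑ l ∈ univ.erase j0, L i l * v' l -
        L i j0 / (s j0 : ℝ) * ∑ l ∈ univ.erase j0, (s l : ℝ) * v' l := by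
      rw [Finset.mul_sum, ← Finset.sum_sub_distrib]
      refine Finset.sum_congr rfl fun l hl => ?_
      have hne := Finset.ne_of_mem_erase hl
      simp only [hM3, if_neg hne]
      rw [h1 l hne]
      ring
    have h4 : ∑ l ∈ univ.erase j0, (s l : ℝ) * v' l = -((a : ℝ) * v j0 + (s j0 : ℝ) * v' j0) := by
      linarith
    rw [h3, h4]
    simp only [hM3, if_true]
    field_simp
    ring
  obtain ⟨y, hy, hfr⟩ := subR (n := k) (by have := j0.2; omega) hS M3 (by
      intro i j
      simp only [hM3]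
      split_ifs
      · exact ((hL _ _).mul (hrat _)).neg
      · exact (hL _ _).sub ((hL _ _).mul (hrat _)))
    (by
      intro v hv
      set v' : Fin k → ℝ := fun l => if l = j0 then
        -((a : ℝ) * v j0 + ∑ l ∈ univ.erase j0, (s l : ℝ) * v l) / (s j0 : ℝ) else v l with hv'
      have h1 : ∀ l, l ≠ j0 → v' l = v l := fun l hl => by simp [hv', hl]
      have h2 : (a : ℝ) * v j0 + ∑ l, (s l : ℝ) * v' l = 0 := by
        rw [← Finset.add_sum_erase univ (fun l => (s l : ℝ) * v' l) (mem_univ j0)]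
        have h3 : ∑ l ∈ univ.erase j0, (s l : ℝ) * v' l = ∑ l ∈ univ.erase j0, (s l : ℝ) * v l :=
          Finset.sum_congr rfl fun l hl => by rw [h1 l (Finset.ne_of_mem_erase hl)]
        rw [h3]
        simp only [hv', if_true]
        field_simp
        ring
      have h4 := hchg v v' h1 h2
      have h5 : v' = 0 := hdet v' (by
        funext i
        have h6 := congrFun hv i
        simp only [Matrix.mulVec, dotProduct, Pi.zero_apply] at h6 ⊢
        rw [← h4 i, h6])
      have h6 : ∀ l, l ≠ j0 → v l = 0 := fun l hl => by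
        rw [← h1 l hl, h5]
        rfl
      have h7 : v j0 = 0 := by
        rw [h5] at h2
        simp only [Pi.zero_apply, mul_zero, Finset.sum_const_zero, add_zero] at h2
        exact (mul_eq_zero.1 h2).resolve_left haR
      funext l
      by_cases hl : l = j0
      · rw [hl]
        exact h7
      · exact h6 l hl)
    (C + 1) ε (by linarith) hε N hN
    (fun t l => if l = j0 then u t else 1)
    β
    (fun t l => if l = j0 then 1 else Q t l)
    (by
      refine Eventually.of_forall fun t l => ?_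
      have h0 : C * N t ≤ (C + 1) * N t := by nlinarith [hN0 t]
      have h0' : 0 ≤ (C + 1) * N t := mul_nonneg (by linarith) (hN0 t)
      by_cases hl : l = j0
      · simp only [hl, if_true]
        exact ⟨(hu t).1, (hu t).2.trans (Real.exp_le_exp.2 h0)⟩
      · simp only [hl, if_false]
        refine ⟨SU_one S, ?_⟩
        rw [Nat.cast_one]
        exact Real.one_le_exp h0')
    (Eventually.of_forall fun t l => (hβ t l).1)
    (by
      refine Eventually.of_forall fun t l => ?_
      have h0 : C * N t ≤ (C + 1) * N t := by nlinarith [hN0 t]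
      exact (hβ t l).2.trans h0)
    (by
      refine Eventually.of_forall fun t => ?_
      have h1 : ∏ l, (((if l = j0 then u t else 1 : ℕ)) : ℝ) = u t := by
        rw [← Nat.cast_prod, Finset.prod_ite_eq' univ j0 (fun _ => u t), if_pos (mem_univ j0)]
      rw [h1]
      exact hsm t)
    (by
      refine Eventually.of_forall fun t h0 => ?_
      have := congrFun h0 j0
      simp at this)
    (by
      refine Eventually.of_forall fun t l => ?_
      refine le_trans (le_of_eq ?_) (hLQ t l)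
      congr 1
      refine hchg _ (fun j => (Q t j : ℝ)) (fun l hl => by simp [hl]) ?_ l
      simp only [if_true, Int.cast_one, mul_one]
      have := hrel t
      exact_mod_cast this)
  -- the relation contradicts the independence of the coordinates
  set c : Fin k → ℤ := fun l => if l = j0 then -(y j0 * s j0) else a * y l - y j0 * s l with hc
  have hc0 : c ≠ 0 := by
    intro h0
    have h1 := congrFun h0 j0
    simp only [hc, if_true, Pi.zero_apply, neg_eq_zero] at h1
    have h2 : y j0 = 0 := (mul_eq_zero.1 h1).resolve_right hsj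
    apply hy
    funext l
    by_cases hl : l = j0
    · rw [hl]
      exact h2
    · have h3 := congrFun h0 l
      simp only [hc, if_neg hl, h2, zero_mul, sub_zero, Pi.zero_apply] at h3
      exact (mul_eq_zero.1 h3).resolve_left hw0
  obtain ⟨t, ht1, ht2⟩ := (hfr.and_eventually (norel c hc0)).exists
  apply ht2
  have h1 := hrel t
  rw [← Finset.add_sum_erase univ _ (mem_univ j0)] at h1 ht1 ⊢
  have h2 : ∑ l ∈ univ.erase j0, y l * ((((if l = j0 then u t else 1 : ℕ)) : ℤ) *
      (if l = j0 then 1 else Q t l)) = ∑ l ∈ univ.erase j0, y l * Q t l :=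
    Finset.sum_congr rfl fun l hl => by
      have hne := Finset.ne_of_mem_erase hl
      simp [hne]
  have h3 : ∑ l ∈ univ.erase j0, c l * Q t l = a * ∑ l ∈ univ.erase j0, y l * Q t l -
      y j0 * ∑ l ∈ univ.erase j0, s l * Q t l := by
    rw [Finset.mul_sum, Finset.mul_sum, ← Finset.sum_sub_distrib]
    refine Finset.sum_congr rfl fun l hl => ?_
    have hne := Finset.ne_of_mem_erase hl
    simp only [hc, if_neg hne]
    ring
  rw [h2] at ht1
  simp only [if_true, mul_one] at ht1
  rw [h3]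
  simp only [hc, if_true]
  have h4 : ∑ l ∈ univ.erase j0, s l * Q t l = -(a * u t + s j0 * Q t j0) := by
    simp only [hs] at h1 ⊢
    linarith
  have h5 : ∑ l ∈ univ.erase j0, y l * Q t l = -(y j0 * u t) := by linarith
  rw [h4, h5]
  ring

/-- the core inequality, for sequences -/
theorem core {k : ℕ} {S : Finset ℕ} (hS : ∀ p ∈ S, p.Prime) {x : ℝ} (hx : IsAlgebraic ℚ x)
    (hxi : Irrational x)
    (L : Matrix (Fin k) (Fin k) ℝ) (hL : ∀ i j, IsAlgebraic ℚ (L i j))
    (hdet : ∀ v : Fin k → ℝ, L.mulVec v = 0 → v = 0) (η : Fin k → ℝ)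
    (hη : ∀ i, IsAlgebraic ℚ (η i)) (C ε : ℝ) (hC : 0 ≤ C) (hε : 0 < ε) (N : ℕ → ℝ)
    (hN : Tendsto N atTop atTop) (hN0 : ∀ t, 0 ≤ N t) (u D : ℕ → ℕ) (M : ℕ → ℤ)
    (Q : ℕ → Fin k → ℤ)
    (β : ℕ → Fin k → ℝ) (E : ℕ → ℝ)
    (hu : ∀ t, SU S (u t) ∧ (u t : ℝ) ≤ Real.exp (C * N t)) (hD : ∀ t, SU S (D t))
    (hDu : ∀ t, D t ≤ u t) (hE : ∀ t, 1 ≤ E t ∧ E t ≤ Real.exp (C * N t))
    (hF : ∀ t, |x * u t - D t * M t - ∑ i, η i * Q t i| ≤ E t)
    (hβ : ∀ t l, 0 < β t l ∧ |Real.log (β t l)| ≤ C * N t)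
    (hLQ : ∀ t l, |∑ j, L l j * (Q t j : ℝ)| ≤ β t l)
    (norel : ∀ c : Fin k → ℤ, c ≠ 0 → ∀ᶠ t in atTop, ∑ i, c i * Q t i ≠ 0)
    (hsm : ∀ t, E t * (∏ l, β t l) * Real.exp (ε * N t) ≤ D t) : False := by
  classical
  obtain ⟨y, hy, hfr⟩ := step1 hS hx L hL hdet η hη C ε hC hε N hN hN0 u D M Q β E hu hD hDu hE hF
    hβ hLQ hsm
  obtain ⟨ψ, hψ, hrel⟩ := Filter.extraction_of_frequently_atTop hfr
  have hψt := hψ.tendsto_atTop
  have hDuR : ∀ t, (D t : ℝ) ≤ u t := fun t => by exact_mod_cast hDu t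
  have hP0 : ∀ t, 0 ≤ ∏ l, β t l := fun t => Finset.prod_nonneg fun l _ => (hβ t l).1.le
  have hsm3 : ∀ t, (∏ l, β t l) * Real.exp (ε * N t) ≤ u t := by
    intro t
    refine le_trans ?_ ((hsm t).trans (hDuR t))
    have h1 : 0 ≤ (∏ l, β t l) * Real.exp (ε * N t) := mul_nonneg (hP0 t) (Real.exp_pos _).le
    have := (hE t).1
    nlinarith
  by_cases hy1 : y 1 = 0
  · refine step3 hS L hL hdet C ε hC hε (fun t => N (ψ t)) (hN.comp hψt) (fun t => hN0 _)
      (fun t => u (ψ t)) (fun t => Q (ψ t)) (fun t => β (ψ t)) (fun t => hu _) (fun t => hβ _)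
      (fun t => hLQ _) (fun t => hsm3 _) (fun c hc => hψt.eventually (norel c hc))
      (Fin.cons (y 0) (fun j => y j.succ.succ)) ?_ ?_
    · intro h0
      apply hy
      funext i
      refine Fin.cases ?_ (fun i => ?_) i
      · have := congrFun h0 0
        simpa using this
      · refine Fin.cases ?_ (fun i => ?_) i
        · exact hy1
        · have := congrFun h0 i.succ
          simpa using this
    · intro t
      have := hrel t
      rw [hy1, zero_mul, add_zero] at this
      simpa using this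
  · obtain ⟨w, hw, hfr2⟩ := step2 hS hx hxi L hL hdet η hη C ε hC hε (fun t => N (ψ t))
      (hN.comp hψt) (fun t => hN0 _) (fun t => u (ψ t)) (fun t => D (ψ t) * M (ψ t))
      (fun t => Q (ψ t)) (fun t => β (ψ t)) (fun t => E (ψ t)) (fun t => hu _) (fun t => hE _)
      (fun t => by
        have := hF (ψ t)
        push_cast
        exact this) (fun t => hβ _) (fun t => hLQ _) (fun t => (hsm _).trans (hDuR _)) y hy1
      (fun t => hrel t)
    obtain ⟨ψ2, hψ2, hrel2⟩ := Filter.extraction_of_frequently_atTop hfr2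
    have hψ2t := hψ2.tendsto_atTop
    exact step3 hS L hL hdet C ε hC hε (fun t => N (ψ (ψ2 t))) ((hN.comp hψt).comp hψ2t)
      (fun t => hN0 _) (fun t => u (ψ (ψ2 t))) (fun t => Q (ψ (ψ2 t))) (fun t => β (ψ (ψ2 t)))
      (fun t => hu _) (fun t => hβ _) (fun t => hLQ _) (fun t => hsm3 _)
      (fun c hc => (hψt.comp hψ2t).eventually (norel c hc)) w hw (fun t => hrel2 t)

end Pool.Agent.U773.DB
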