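import Mathlib
import Pool.Agent.U773.DB.Fin3

/-! Digit blocks and good approximations to algebraic numbers. -/

set_option autoImplicit false

open Finset Filter Topology

namespace Pool.Agent.U773.DB

open Pool.Agent.TH419.WI Pool.Agent.N671.OPN Pool.Agent.U773.SF Pool.Agent.U773.WN
  Pool.Agent.U773.RS Pool.Agent.U773.BD

theorem app {d : ℕ} {x : ℝ} (hx : IsAlgebraic ℚ x) (hxi : Irrational x) (α γ : Fin d → ℝ)
    (hα : ∀ j, IsAlgebraic ℚ (α j)) (hγ : ∀ j, IsAlgebraic ℚ (γ j))
    (hind : ∀ (a : ℤ) (c : Fin d → ℤ), (a : ℝ) + ∑ j, (c j : ℝ) * α j = 0 → c = 0)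
    (η η0 : ℝ) (hη : IsAlgebraic ℚ η) (hη0 : IsAlgebraic ℚ η0)
    {S : Finset ℕ} (hS : ∀ p ∈ S, p.Prime) (C ε : ℝ) (hε : 0 < ε) :
    ∃ U : ℕ, ∀ N : ℕ, U ≤ N → ∀ u D : ℕ, SU S u → SU S D → D ≤ u →
      (u : ℝ) ≤ Real.exp (C * N) → ∀ q M : ℤ, (N : ℝ) ≤ |(q : ℝ)| →
      |(q : ℝ)| ≤ Real.exp (C * N) →
      D * Real.exp (-(ε * N)) ≤ (1 + |x * u - D * M - (η * q + η0)|) *
        (|(q : ℝ)| * ∏ j, |α j * q - γ j - round (α j * q - γ j)|) := by
  classical
  by_contra hcon
  push Not at hcon
  set c' : ℝ := |C| with hc'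
  have hc0 : 0 ≤ c' := abs_nonneg _
  set K : ℝ := 2 * c' + 1 + ε with hK
  obtain ⟨U0, hU0⟩ := eventually_atTop.1 (ev_small (show (0 : ℝ) < 1 by norm_num) tendsto_id 2)
  choose N hN u D hu hD hDu huC q M0 hq hqC hsm0 using fun t : ℕ => hcon (t + U0 + 1)
  have hNt : Tendsto (fun t => (N t : ℝ)) atTop atTop :=
    tendsto_natCast_atTop_atTop.comp (tendsto_atTop_mono (fun t => by
      have := hN t
      simp only [id]
      omega) tendsto_id)
  have hN0 : ∀ t, (0 : ℝ) ≤ N t := fun t => Nat.cast_nonneg _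
  have hN1 : ∀ t, (1 : ℝ) ≤ N t := fun t => by
    have := hN t
    exact_mod_cast (by omega : 1 ≤ N t)
  have hexp : ∀ t, 2 ≤ Real.exp (N t) := fun t => by
    have := hU0 (N t) (by have := hN t; omega)
    simpa using this
  have hCc : ∀ t, Real.exp (C * N t) ≤ Real.exp (c' * N t) := fun t =>
    Real.exp_le_exp.2 (mul_le_mul_of_nonneg_right (le_abs_self C) (hN0 t))
  have hq1 : ∀ t, (1 : ℝ) ≤ |(q t : ℝ)| := fun t => (hN1 t).trans (hq t)
  have hqt : Tendsto (fun t => |(q t : ℝ)|) atTop atTop := tendsto_atTop_mono hq hNt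
  have hD1 : ∀ t, (1 : ℝ) ≤ D t := fun t => by exact_mod_cast (hD t).1
  set G : ℕ → ℝ := fun t => x * u t - (η * q t + η0) with hG
  set M : ℕ → ℤ := fun t => round (G t / D t) with hM
  set E : ℕ → ℝ := fun t => 1 + |x * u t - D t * M t - (η * q t + η0)| with hE
  have hEG : ∀ t, E t = 1 + D t * |G t / D t - M t| := by
    intro t
    simp only [hE]
    congr 1
    rw [← abs_of_pos (by linarith [hD1 t] : (0 : ℝ) < D t), ← abs_mul,
      abs_of_pos (by linarith [hD1 t] : (0 : ℝ) < D t)]
    congr 1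
    have : (D t : ℝ) ≠ 0 := by linarith [hD1 t]
    simp only [hG]
    field_simp
    ring
  have hEM : ∀ t, E t ≤ 1 + |x * u t - D t * M0 t - (η * q t + η0)| := by
    intro t
    rw [hEG t]
    have h1 : |G t / D t - M t| ≤ |G t / D t - M0 t| := round_le _ _
    have h2 : x * u t - D t * M0 t - (η * q t + η0) = D t * (G t / D t - M0 t) := by
      have : (D t : ℝ) ≠ 0 := by linarith [hD1 t]
      simp only [hG]
      field_simp
      ring
    rw [h2, abs_mul, abs_of_pos (by linarith [hD1 t] : (0 : ℝ) < D t)]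
    have := mul_le_mul_of_nonneg_left h1 (by linarith [hD1 t] : (0 : ℝ) ≤ D t)
    linarith
  set ds : ℕ → Fin d → ℝ := fun t j => |α j * q t - γ j - round (α j * q t - γ j)| with hds
  have hds1 : ∀ t j, ds t j ≤ 1 := fun t j => by
    have := abs_sub_round (α j * q t - γ j)
    simp only [hds]
    linarith
  have hds0 : ∀ t j, 0 ≤ ds t j := fun t j => abs_nonneg _
  set e0 : ℕ → ℝ := fun t => Real.exp (-(K * N t)) with he0
  have hK0 : 0 < K := by rw [hK]; linarith
  have he1 : ∀ t, e0 t ≤ 1 := fun t => by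
    simp only [he0]
    rw [Real.exp_le_one_iff]
    have : 0 ≤ K * N t := mul_nonneg hK0.le (hN0 t)
    linarith
  have hep : ∀ t, 0 < e0 t := fun t => Real.exp_pos _
  set βj : ℕ → Fin d → ℝ := fun t j => max (ds t j) (e0 t) with hβj
  have hβ0 : ∀ t j, 0 < βj t j := fun t j => lt_max_of_lt_right (hep t)
  have hβ1 : ∀ t j, βj t j ≤ 1 := fun t j => max_le (hds1 t j) (he1 t)
  have hEle : ∀ t, E t ≤ Real.exp ((c' + 1) * N t) := by
    intro t
    rw [hEG t]
    have h1 : |G t / D t - M t| ≤ 1 / 2 := abs_sub_round _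
    have h2 : (D t : ℝ) ≤ Real.exp (c' * N t) :=
      (by exact_mod_cast hDu t : (D t : ℝ) ≤ u t).trans ((huC t).trans (hCc t))
    have h4 : (1 : ℝ) ≤ Real.exp (c' * N t) := Real.one_le_exp (mul_nonneg hc0 (hN0 t))
    have h7 : Real.exp ((c' + 1) * N t) = Real.exp (c' * N t) * Real.exp (N t) := by
      rw [← Real.exp_add]
      congr 1
      ring
    rw [h7]
    have h8 := mul_le_mul_of_nonneg_left (hexp t) (Real.exp_pos (c' * N t)).le
    have h9 : (D t : ℝ) * |G t / D t - M t| ≤ D t * (1 / 2) :=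
      mul_le_mul_of_nonneg_left h1 (by linarith [hD1 t])
    linarith
  have hE1 : ∀ t, 1 ≤ E t := fun t => by
    simp only [hE]
    linarith [abs_nonneg (x * u t - D t * M t - (η * q t + η0))]
  have hsm : ∀ t, E t * (|(q t : ℝ)| * ∏ j, ds t j) < D t * Real.exp (-(ε * N t)) := fun t =>
    lt_of_le_of_lt (mul_le_mul_of_nonneg_right (hEM t)
      (mul_nonneg (abs_nonneg _) (Finset.prod_nonneg fun j _ => hds0 t j))) (hsm0 t)
  have hsmall : ∀ t, E t * (|(q t : ℝ)| * ∏ j, βj t j) * Real.exp (ε * N t) ≤ D t := by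
    intro t
    by_cases hcase : ∀ j, e0 t ≤ ds t j
    · have h1 : ∏ j, βj t j = ∏ j, ds t j :=
        Finset.prod_congr rfl fun j _ => max_eq_left (hcase j)
      rw [h1]
      have h2 : E t * (|(q t : ℝ)| * ∏ j, ds t j) ≤ D t * Real.exp (-(ε * N t)) := (hsm t).le
      calc E t * (|(q t : ℝ)| * ∏ j, ds t j) * Real.exp (ε * N t)
          ≤ D t * Real.exp (-(ε * N t)) * Real.exp (ε * N t) :=
            mul_le_mul_of_nonneg_right h2 (Real.exp_pos _).le
        _ = D t := by
            rw [mul_assoc, ← Real.exp_add]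
            simp
    · push Not at hcase
      obtain ⟨j0, hj0⟩ := hcase
      have h1 : ∏ j, βj t j ≤ e0 t := by
        rw [← Finset.mul_prod_erase univ (βj t) (mem_univ j0)]
        have h2 : βj t j0 = e0 t := max_eq_right hj0.le
        rw [h2]
        exact mul_le_of_le_one_right (hep t).le
          (Finset.prod_le_one (fun j _ => (hβ0 t j).le) (fun j _ => hβ1 t j))
      have h3 : |(q t : ℝ)| ≤ Real.exp (c' * N t) := (hqC t).trans (hCc t)
      have hP : 0 ≤ ∏ j, βj t j := Finset.prod_nonneg fun j _ => (hβ0 t j).le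
      have h4 : E t * (|(q t : ℝ)| * ∏ j, βj t j) * Real.exp (ε * N t) ≤
          Real.exp ((c' + 1) * N t) * (Real.exp (c' * N t) * e0 t) * Real.exp (ε * N t) := by
        refine mul_le_mul_of_nonneg_right ?_ (Real.exp_pos _).le
        refine mul_le_mul (hEle t) ?_ (mul_nonneg (abs_nonneg _) hP) (Real.exp_pos _).le
        exact mul_le_mul h3 h1 hP (Real.exp_pos _).le
      refine h4.trans ?_
      have h5 : Real.exp ((c' + 1) * N t) * (Real.exp (c' * N t) * e0 t) * Real.exp (ε * N t) =
          1 := by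
        simp only [he0]
        rw [← Real.exp_add, ← Real.exp_add, ← Real.exp_add, Real.exp_eq_one_iff, hK]
        ring
      rw [h5]
      exact_mod_cast (hD t).1
  set L : Matrix (Fin (d + 2)) (Fin (d + 2)) ℝ := Fin.cons (Fin.cons 1 0)
    (Fin.cons (Fin.cons 0 (Fin.cons 1 0))
      (fun j => Fin.cons (-γ j) (Fin.cons (α j) (fun l => if l = j then -1 else 0)))) with hL
  refine core (k := d + 2) hS hx hxi L ?_ ?_ (Fin.cons η0 (Fin.cons η 0)) ?_ (K + c' + 1) ε
    (by linarith) hε (fun t => (N t : ℝ)) hNt hN0 u D M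
    (fun t => Fin.cons 1 (Fin.cons (q t) (fun j => round (α j * q t - γ j))))
    (fun t => Fin.cons 1 (Fin.cons (|(q t : ℝ)|) (βj t))) E ?_ hD hDu ?_ ?_ ?_ ?_ ?_ ?_
  · intro i j
    refine Fin.cases ?_ (fun i => ?_) i
    · refine Fin.cases ?_ (fun j => ?_) j
      · simp only [hL, Fin.cons_zero]
        exact isAlgebraic_one
      · simp only [hL, Fin.cons_zero, Fin.cons_succ, Pi.zero_apply]
        exact isAlgebraic_zero
    · refine Fin.cases ?_ (fun i => ?_) i
      · refine Fin.cases ?_ (fun j => ?_) j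
        · simp only [hL, Fin.cons_zero, Fin.cons_succ]
          exact isAlgebraic_zero
        · refine Fin.cases ?_ (fun j => ?_) j
          · simp only [hL, Fin.cons_zero, Fin.cons_succ]
            exact isAlgebraic_one
          · simp only [hL, Fin.cons_zero, Fin.cons_succ, Pi.zero_apply]
            exact isAlgebraic_zero
      · refine Fin.cases ?_ (fun j => ?_) j
        · simp only [hL, Fin.cons_zero, Fin.cons_succ]
          exact (hγ i).neg
        · refine Fin.cases ?_ (fun j => ?_) j
          · simp only [hL, Fin.cons_zero, Fin.cons_succ]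
            exact hα i
          · simp only [hL, Fin.cons_succ]
            split_ifs
            · exact isAlgebraic_one.neg
            · exact isAlgebraic_zero
  · intro v hv
    have r0 := congrFun hv 0
    have r1 := congrFun hv (Fin.succ 0)
    have r2 := fun i : Fin d => congrFun hv i.succ.succ
    simp only [Matrix.mulVec, dotProduct, hL, Fin.sum_univ_succ, Fin.cons_zero, Fin.cons_succ,
      Pi.zero_apply, zero_mul, Finset.sum_const_zero, add_zero, one_mul, zero_add] at r0 r1 r2
    have r2' : ∀ i : Fin d, v i.succ.succ = 0 := by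
      intro i
      have h1 := r2 i
      rw [r0, r1, mul_zero, mul_zero, zero_add, zero_add] at h1
      simpa using h1
    funext i
    refine Fin.cases ?_ (fun i => ?_) i
    · exact r0
    · refine Fin.cases ?_ (fun i => ?_) i
      · exact r1
      · exact r2' i
  · intro i
    refine Fin.cases ?_ (fun i => ?_) i
    · simpa using hη0
    · refine Fin.cases ?_ (fun i => ?_) i
      · simpa using hη
      · simp only [Fin.cons_succ, Pi.zero_apply]
        exact isAlgebraic_zero
  · intro t
    refine ⟨hu t, ((huC t).trans (hCc t)).trans (Real.exp_le_exp.2 ?_)⟩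
    exact mul_le_mul_of_nonneg_right (by linarith) (hN0 t)
  · intro t
    refine ⟨hE1 t, (hEle t).trans (Real.exp_le_exp.2 ?_)⟩
    exact mul_le_mul_of_nonneg_right (by linarith) (hN0 t)
  · intro t
    rw [Fin.sum_univ_succ, Fin.sum_univ_succ]
    simp only [Fin.cons_zero, Fin.cons_succ, Pi.zero_apply, zero_mul, Finset.sum_const_zero,
      add_zero, Int.cast_one, mul_one]
    rw [add_comm η0]
    simp only [hE]
    linarith
  · intro t l
    have hKN : 0 ≤ K * N t := mul_nonneg hK0.le (hN0 t)
    have hcN : 0 ≤ c' * N t := mul_nonneg hc0 (hN0 t)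
    refine Fin.cases ?_ (fun l => ?_) l
    · simp only [Fin.cons_zero, Real.log_one, abs_zero]
      exact ⟨one_pos, by nlinarith [hN0 t]⟩
    · refine Fin.cases ?_ (fun l => ?_) l
      · simp only [Fin.cons_zero, Fin.cons_succ]
        refine ⟨by linarith [hq1 t], ?_⟩
        rw [abs_of_nonneg (Real.log_nonneg (hq1 t))]
        have h1 := (Real.log_le_iff_le_exp (by linarith [hq1 t])).2 ((hqC t).trans (hCc t))
        nlinarith [hN0 t]
      · simp only [Fin.cons_succ]
        refine ⟨hβ0 t l, ?_⟩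
        have h1 : Real.log (βj t l) ≤ 0 := Real.log_nonpos (hβ0 t l).le (hβ1 t l)
        have h2 : -(K * N t) ≤ Real.log (βj t l) := by
          rw [Real.le_log_iff_exp_le (hβ0 t l)]
          exact le_max_right _ _
        rw [abs_of_nonpos h1]
        nlinarith [hN0 t]
  · intro t l
    refine Fin.cases ?_ (fun l => ?_) l
    · simp [hL, Fin.sum_univ_succ]
    · refine Fin.cases ?_ (fun l => ?_) l
      · simp [hL, Fin.sum_univ_succ]
      · simp only [hL, Fin.sum_univ_succ, Fin.cons_zero, Fin.cons_succ, Int.cast_one, mul_one]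
        have h1 : ∑ i : Fin d, (if i = l then (-1 : ℝ) else 0) *
            ((round (α i * q t - γ i) : ℤ) : ℝ) = -((round (α l * q t - γ l) : ℤ) : ℝ) := by
          simp
        rw [h1]
        refine le_trans (le_of_eq ?_) (le_max_left _ _)
        simp only [hds]
        congr 1
        ring
  · intro c hc
    set κ : ℝ := (c (Fin.succ 0) : ℝ) + ∑ j : Fin d, (c j.succ.succ : ℝ) * α j with hκ
    by_cases hκ0 : κ = 0
    · have h1 := hind _ _ hκ0
      have h1' : ∀ j : Fin d, c j.succ.succ = 0 := fun j => congrFun h1 j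
      have h2 : c (Fin.succ 0) = 0 := by
        rw [hκ] at hκ0
        simp only [h1', Int.cast_zero, zero_mul, Finset.sum_const_zero, add_zero] at hκ0
        exact_mod_cast hκ0
      have h3 : c 0 ≠ 0 := by
        intro h0
        apply hc
        funext i
        refine Fin.cases ?_ (fun i => ?_) i
        · exact h0
        · refine Fin.cases ?_ (fun i => ?_) i
          · exact h2
          · exact h1' i
      refine Eventually.of_forall fun t => ?_
      rw [Fin.sum_univ_succ, Fin.sum_univ_succ]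
      simp only [Fin.cons_zero, Fin.cons_succ, h1', h2, zero_mul, Finset.sum_const_zero, add_zero,
        mul_one]
      exact h3
    · have hκp : 0 < |κ| := abs_pos.2 hκ0
      set B : ℝ := |(c 0 : ℝ)| + ∑ j : Fin d, |(c j.succ.succ : ℝ)| * (|γ j| + 1) with hB
      filter_upwards [hqt.eventually_gt_atTop (B / |κ|)] with t ht h0
      rw [Fin.sum_univ_succ, Fin.sum_univ_succ] at h0
      simp only [Fin.cons_zero, Fin.cons_succ, mul_one] at h0
      have h1 : (c 0 : ℝ) + ((c (Fin.succ 0) : ℝ) * q t +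
          ∑ j : Fin d, (c j.succ.succ : ℝ) * ((round (α j * q t - γ j) : ℤ) : ℝ)) = 0 := by
        exact_mod_cast h0
      have h2 : κ * q t = -(c 0 : ℝ) + ∑ j : Fin d, (c j.succ.succ : ℝ) *
          (γ j + (α j * q t - γ j - round (α j * q t - γ j))) := by
        have h3 : ∑ j : Fin d, (c j.succ.succ : ℝ) *
            (γ j + (α j * q t - γ j - round (α j * q t - γ j))) =
            (∑ j : Fin d, (c j.succ.succ : ℝ) * α j) * q t -
            ∑ j : Fin d, (c j.succ.succ : ℝ) * ((round (α j * q t - γ j) : ℤ) : ℝ) := by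
          rw [Finset.sum_mul, ← Finset.sum_sub_distrib]
          exact Finset.sum_congr rfl fun j _ => by ring
        rw [h3, hκ]
        linarith
      have h4 : |κ * q t| ≤ B := by
        rw [h2]
        refine (abs_add_le _ _).trans (add_le_add (by rw [abs_neg]) ?_)
        refine (Finset.abs_sum_le_sum_abs _ _).trans (Finset.sum_le_sum fun j _ => ?_)
        rw [abs_mul]
        refine mul_le_mul_of_nonneg_left ?_ (abs_nonneg _)
        refine (abs_add_le _ _).trans (add_le_add le_rfl ?_)
        exact hds1 t j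
      rw [abs_mul] at h4
      rw [div_lt_iff₀ hκp] at ht
      linarith
  · intro t
    rw [Fin.prod_univ_succ, Fin.prod_univ_succ]
    simp only [Fin.cons_zero, Fin.cons_succ, one_mul]
    exact hsmall t

end Pool.Agent.U773.DB
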