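import Mathlib
import Pool.Agent.U773.DB.App

/-! Digit versions. -/

set_option autoImplicit false

open Finset Filter Topology

namespace Pool.Agent.U773.DB

open Pool.Agent.TH419.WI Pool.Agent.N671.OPN Pool.Agent.U773.SF Pool.Agent.U773.WN
  Pool.Agent.U773.RS Pool.Agent.U773.BD

lemma lin_le {B : ℝ} (hB : 0 < B) (K : ℝ) :
    ∃ U : ℕ, ∀ m : ℕ, U ≤ m → K * ((m : ℝ) + 1) ≤ Real.exp (B * m) := by
  set a : ℝ := min 1 (B / 2) with ha
  have ha0 : 0 < a := lt_min one_pos (by positivity)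
  obtain ⟨U, hU⟩ := eventually_atTop.1 (ev_small (show (0 : ℝ) < B / 2 by positivity) tendsto_id
    (|K| / a))
  refine ⟨U, fun m hm => ?_⟩
  have h1 := hU m hm
  simp only [id] at h1
  have hm0 : (0 : ℝ) ≤ m := Nat.cast_nonneg _
  have h2 : a * ((m : ℝ) + 1) ≤ Real.exp (B / 2 * m) := by
    have h3 := Real.add_one_le_exp (B / 2 * m)
    have h4 : a ≤ 1 := min_le_left _ _
    have h5 : a * m ≤ B / 2 * m := mul_le_mul_of_nonneg_right (min_le_right _ _) hm0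
    nlinarith
  have h6 : Real.exp (B * m) = Real.exp (B / 2 * m) * Real.exp (B / 2 * m) := by
    rw [← Real.exp_add]
    congr 1
    ring
  rw [h6]
  calc K * ((m : ℝ) + 1) ≤ |K| * ((m : ℝ) + 1) :=
        mul_le_mul_of_nonneg_right (le_abs_self _) (by linarith)
    _ = (|K| / a) * (a * ((m : ℝ) + 1)) := by field_simp
    _ ≤ Real.exp (B / 2 * m) * Real.exp (B / 2 * m) :=
        mul_le_mul h1 h2 (by positivity) (Real.exp_pos _).le

/-- Ridout's theorem, for all multiples of `D` -/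
lemma low {x : ℝ} (hx : IsAlgebraic ℚ x) (hxi : Irrational x) {S : Finset ℕ}
    (hS : ∀ p ∈ S, p.Prime) (C ε : ℝ) (hε : 0 < ε) :
    ∃ U : ℕ, ∀ N : ℕ, U ≤ N → ∀ u D : ℕ, SU S u → SU S D → D ≤ u →
      (u : ℝ) ≤ Real.exp (C * N) → ∀ M : ℤ,
      D * Real.exp (-(ε * N)) ≤ |x * u - D * M| := by
  obtain ⟨ℓ, hℓx, hℓ1⟩ := exists_fun_irr hxi
  obtain ⟨U, hU⟩ := main (fun _ : Fin 1 => x) (fun _ => hx) ℓ hℓ1 hS C ε hε
  refine ⟨U, fun N hN u D hu hD hDu huC M => ?_⟩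
  have hDuR : (D : ℝ) ≤ u := by exact_mod_cast hDu
  have key := hU N hN D (fun _ => (u : ℤ)) M hD.1 hD.2 (hDuR.trans huC) (fun _ => by
    rw [Int.cast_natCast, abs_of_nonneg (Nat.cast_nonneg _)]
    exact huC)
  simp only [Finset.univ_unique, Finset.sum_singleton, Finset.prod_singleton] at key
  rw [hu.fr hS, Nat.cast_one, mul_one] at key
  have h3 : ℓ (x * ((u : ℤ) : ℝ)) = (u : ℚ) := by
    rw [mul_comm, fun_int, hℓx, mul_one]
    push_cast
    rfl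
  rw [h3] at key
  push_cast at key
  rwa [abs_of_nonneg (Nat.cast_nonneg u : (0 : ℝ) ≤ (u : ℝ)), min_eq_left hDuR] at key

lemma SU_pow {b : ℕ} (hb : 2 ≤ b) (j : ℕ) : SU b.primeFactors (b ^ j) :=
  ⟨by positivity, fun q hq hd => Nat.mem_primeFactors.2
    ⟨hq, hq.dvd_of_dvd_pow hd, by omega⟩⟩

/-- the general inequality for blocks of digits -/
theorem digits {d : ℕ} {x : ℝ} (hx : IsAlgebraic ℚ x) (hxi : Irrational x) (α γ : Fin d → ℝ)
    (hα : ∀ j, IsAlgebraic ℚ (α j)) (hγ : ∀ j, IsAlgebraic ℚ (γ j))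
    (hind : ∀ (a : ℤ) (c : Fin d → ℤ), (a : ℝ) + ∑ j, (c j : ℝ) * α j = 0 → c = 0)
    (η η0 : ℝ) (hη : IsAlgebraic ℚ η) (hη0 : IsAlgebraic ℚ η0) {b : ℕ} (hb : 2 ≤ b)
    (C δ : ℝ) (hδ : 0 < δ) :
    ∃ U : ℕ, ∀ m : ℕ, U ≤ m → ∀ n : ℕ, (n : ℝ) ≤ C * m → ∀ q M : ℤ,
      (m : ℝ) ≤ |(q : ℝ)| → |(q : ℝ)| ≤ Real.exp (C * m) →
      (b : ℝ) ^ ((1 - δ) * (m : ℝ)) ≤ (1 + |(blk b x n m : ℝ) - (η * q + η0) - (b : ℝ) ^ m * M|) *
        (|(q : ℝ)| * ∏ j, |α j * q - γ j - round (α j * q - γ j)|) := by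
  classical
  have hb1 : (1 : ℝ) < b := by exact_mod_cast hb
  have hlb : 0 < Real.log b := Real.log_pos hb1
  set ℓ : ℝ := Real.log b with hℓ
  obtain ⟨U2, hU2⟩ := app hx hxi α γ hα hγ hind η η0 hη hη0
    (fun p h => Nat.prime_of_mem_primeFactors h : ∀ p ∈ b.primeFactors, p.Prime)
    ((|C| + 1) * ℓ + |C|) (δ / 2 * ℓ) (by positivity)
  obtain ⟨U3, hU3⟩ := lin_le (show 0 < δ / 2 * ℓ by positivity) 2
  refine ⟨U2 + U3, fun m hm n hn q M hqm hqC => ?_⟩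
  have hm0 : (0 : ℝ) ≤ m := Nat.cast_nonneg _
  have hnC : (n : ℝ) ≤ |C| * m := hn.trans (mul_le_mul_of_nonneg_right (le_abs_self C) hm0)
  obtain ⟨M0, hM1, hM2⟩ := blk_spec b x n m
  have hCm0 : 0 ≤ |C| * m := by positivity
  have key := hU2 m (by omega) (b ^ (n + m)) (b ^ m) (SU_pow hb _) (SU_pow hb _)
    (Nat.pow_le_pow_right (by omega) (by omega)) (by
      push_cast
      rw [← Real.rpow_natCast, pow_eq_exp hb]
      apply Real.exp_le_exp.2
      push_cast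
      nlinarith) q (M0 + M) hqm (by
      refine hqC.trans (Real.exp_le_exp.2 ?_)
      have : 0 ≤ (|C| + 1) * ℓ * m := by positivity
      have := mul_le_mul_of_nonneg_right (le_abs_self C) hm0
      nlinarith)
  set P : ℝ := |(q : ℝ)| * ∏ j, |α j * q - γ j - round (α j * q - γ j)| with hP
  have hP0 : 0 ≤ P := mul_nonneg (abs_nonneg _) (Finset.prod_nonneg fun _ _ => abs_nonneg _)
  set F : ℝ := |(blk b x n m : ℝ) - (η * q + η0) - (b : ℝ) ^ m * M| with hF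
  have hF0 : 0 ≤ F := abs_nonneg _
  have h1 : 1 + |x * ((b ^ (n + m) : ℕ) : ℝ) - ((b ^ m : ℕ) : ℝ) * ((M0 + M : ℤ) : ℝ) -
      (η * q + η0)| ≤ 2 * (1 + F) := by
    have e1 : x * ((b ^ (n + m) : ℕ) : ℝ) - ((b ^ m : ℕ) : ℝ) * ((M0 + M : ℤ) : ℝ) -
        (η * q + η0) = ((b : ℝ) ^ (n + m) * x - (b : ℝ) ^ m * M0 - blk b x n m) +
        ((blk b x n m : ℝ) - (η * q + η0) - (b : ℝ) ^ m * M) := by
      push_cast
      ring
    rw [e1]
    have e2 := abs_add_le ((b : ℝ) ^ (n + m) * x - (b : ℝ) ^ m * M0 - blk b x n m)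
      ((blk b x n m : ℝ) - (η * q + η0) - (b : ℝ) ^ m * M)
    have e3 : |(b : ℝ) ^ (n + m) * x - (b : ℝ) ^ m * M0 - blk b x n m| ≤ 1 := by
      rw [abs_le]
      constructor <;> linarith
    linarith
  have h2 : ((b ^ m : ℕ) : ℝ) * Real.exp (-(δ / 2 * ℓ * m)) ≤ 2 * (1 + F) * P :=
    key.trans (mul_le_mul_of_nonneg_right h1 hP0)
  have h3 := hU3 m (by omega)
  have h4 : (2 : ℝ) ≤ Real.exp (δ / 2 * ℓ * m) := by linarith
  have h5 : 2 * (1 + F) * P ≤ Real.exp (δ / 2 * ℓ * m) * ((1 + F) * P) := by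
    have : 0 ≤ (1 + F) * P := mul_nonneg (by linarith) hP0
    nlinarith
  have h6 : ((b ^ m : ℕ) : ℝ) * Real.exp (-(δ / 2 * ℓ * m)) =
      Real.exp (δ / 2 * ℓ * m) * (b : ℝ) ^ ((1 - δ) * (m : ℝ)) := by
    push_cast
    rw [← Real.rpow_natCast, pow_eq_exp hb, pow_eq_exp hb, ← Real.exp_add, ← Real.exp_add]
    congr 1
    ring
  rw [h6] at h2
  exact le_of_mul_le_mul_left (h2.trans h5) (Real.exp_pos _)

/-- comparison of a block of digits of `x` and a block of digits of the real number `z` -/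
lemma two_blocks {b : ℕ} (hb : 2 ≤ b) (x z : ℝ) (n m j : ℕ) : ∃ M : ℤ,
    |x * ((b ^ (n + m + j) : ℕ) : ℝ) - ((b ^ (m + j) : ℕ) : ℝ) * M - z| ≤
      (b : ℝ) ^ j * (|(blk b x n m : ℝ) - ((⌊z / (b : ℝ) ^ j⌋ % (b : ℤ) ^ m : ℤ) : ℝ)| + 1) := by
  obtain ⟨M0, hM1, hM2⟩ := blk_spec b x n m
  have hb0 : (0 : ℝ) < b := by exact_mod_cast (by omega : 0 < b)
  have hbj : (0 : ℝ) < (b : ℝ) ^ j := by positivity
  set A : ℤ := ⌊z / (b : ℝ) ^ j⌋ / (b : ℤ) ^ m with hA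
  set V : ℤ := ⌊z / (b : ℝ) ^ j⌋ % (b : ℤ) ^ m with hV
  have hVA : ((⌊z / (b : ℝ) ^ j⌋ : ℤ) : ℝ) = V + (b : ℝ) ^ m * A := by
    have := Int.emod_add_mul_ediv ⌊z / (b : ℝ) ^ j⌋ ((b : ℤ) ^ m)
    rw [← hV, ← hA] at this
    exact_mod_cast this.symm
  have h2 := Int.floor_le (z / (b : ℝ) ^ j)
  have h3 := Int.lt_floor_add_one (z / (b : ℝ) ^ j)
  rw [hVA] at h2 h3
  refine ⟨M0 - A, ?_⟩
  have hz : z = (b : ℝ) ^ j * (z / (b : ℝ) ^ j) := by field_simp
  have e1 : x * ((b ^ (n + m + j) : ℕ) : ℝ) - ((b ^ (m + j) : ℕ) : ℝ) * ((M0 - A : ℤ) : ℝ) - z =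
      (b : ℝ) ^ j * (((b : ℝ) ^ (n + m) * x - (b : ℝ) ^ m * M0 - blk b x n m) -
        (z / (b : ℝ) ^ j - (V + (b : ℝ) ^ m * A)) + ((blk b x n m : ℝ) - V)) := by
    conv_lhs => rw [hz]
    push_cast
    rw [pow_add (b : ℝ) (n + m) j, pow_add (b : ℝ) m j]
    ring
  rw [e1, abs_mul, abs_of_pos hbj]
  refine mul_le_mul_of_nonneg_left ?_ hbj.le
  refine (abs_add_le _ _).trans ?_
  rw [add_comm]
  refine add_le_add le_rfl ?_
  rw [abs_le]
  constructor <;> linarith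

/-- blocks of digits of numbers near the denominators of good approximations -/
theorem convergents {x α : ℝ} (hx : IsAlgebraic ℚ x) (hxi : Irrational x) (hα : IsAlgebraic ℚ α)
    (hαi : Irrational α) (η : ℝ) (hη : IsAlgebraic ℚ η) {b : ℕ}
    (hb : 2 ≤ b) (K C δ : ℝ) (hδ : 0 < δ) :
    ∃ U : ℕ, ∀ m : ℕ, U ≤ m → ∀ n j : ℕ, (n : ℝ) ≤ C * m → (j : ℝ) ≤ C * m → ∀ q p : ℤ,
      |(q : ℝ)| * |α * q - p| ≤ K → |(q : ℝ)| ≤ Real.exp (C * m) → ∀ z : ℝ, |z - η * q| ≤ K →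
      (b : ℝ) ^ ((1 - δ) * (m : ℝ)) ≤
        |(blk b x n m : ℝ) - ((⌊z / (b : ℝ) ^ j⌋ % (b : ℤ) ^ m : ℤ) : ℝ)| := by
  have hb1 : (1 : ℝ) < b := by exact_mod_cast hb
  have hlb : 0 < Real.log b := Real.log_pos hb1
  set ℓ : ℝ := Real.log b with hℓ
  set δ' : ℝ := min δ 1 with hδ'
  have hδ'0 : 0 < δ' := lt_min hδ one_pos
  have hδ'1 : δ' ≤ δ := min_le_left _ _
  have hδ'2 : δ' ≤ 1 := min_le_right _ _
  set C1 : ℝ := (2 * |C| + 1) * ℓ + |C| with hC1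
  obtain ⟨U1, hU1⟩ := low hx hxi
    (fun p h => Nat.prime_of_mem_primeFactors h : ∀ p ∈ b.primeFactors, p.Prime)
    C1 (δ' / 2 * ℓ) (by positivity)
  obtain ⟨U2, hU2⟩ := app (d := 1) hx hxi (fun _ => α) (fun _ => 0) (fun _ => hα)
    (fun _ => isAlgebraic_zero) (by
      intro a c h
      funext i
      have hi : i = 0 := Subsingleton.elim _ _
      rw [Fin.sum_univ_one] at h
      rw [hi]
      by_contra hc
      have hcR : (c 0 : ℝ) ≠ 0 := by exact_mod_cast hc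
      apply hαi
      refine ⟨-(a : ℚ) / (c 0 : ℚ), ?_⟩
      push_cast
      rw [div_eq_iff hcR]
      linarith) η 0 hη isAlgebraic_zero
    (fun p h => Nat.prime_of_mem_primeFactors h : ∀ p ∈ b.primeFactors, p.Prime)
    C1 (δ' / 2 * ℓ) (by positivity)
  obtain ⟨U3, hU3⟩ := lin_le (show 0 < δ' / 2 * ℓ by positivity)
    ((3 + |K|) * |K| + 3 + |K| + |η|)
  refine ⟨U1 + U2 + U3, fun m hm n j hn hj q p hqp hqC z hz => ?_⟩
  have hK0 : 0 ≤ K := le_trans (by positivity) hqp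
  rw [abs_of_nonneg hK0] at hU3
  have hm0 : (0 : ℝ) ≤ m := Nat.cast_nonneg _
  have hnC : (n : ℝ) ≤ |C| * m := hn.trans (mul_le_mul_of_nonneg_right (le_abs_self C) hm0)
  have hjC : (j : ℝ) ≤ |C| * m := hj.trans (mul_le_mul_of_nonneg_right (le_abs_self C) hm0)
  have hCm0 : 0 ≤ |C| * m := by positivity
  obtain ⟨M, hM⟩ := two_blocks hb x z n m j
  by_contra hcon
  push Not at hcon
  set X : ℝ := |(blk b x n m : ℝ) - ((⌊z / (b : ℝ) ^ j⌋ % (b : ℤ) ^ m : ℤ) : ℝ)| with hX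
  set A : ℝ := (b : ℝ) ^ ((1 - δ') * (m : ℝ)) with hA
  have hA1 : 1 ≤ A := Real.one_le_rpow hb1.le (by nlinarith)
  have hXA : X ≤ A := hcon.le.trans (Real.rpow_le_rpow_of_exponent_le hb1.le
    (mul_le_mul_of_nonneg_right (by linarith) hm0))
  set B : ℝ := (b : ℝ) ^ j with hB
  have hB1 : 1 ≤ B := one_le_pow₀ hb1.le
  have hu : ((b ^ (n + m + j) : ℕ) : ℝ) ≤ Real.exp (C1 * m) := by
    push_cast
    rw [← Real.rpow_natCast, pow_eq_exp hb]
    apply Real.exp_le_exp.2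
    push_cast
    nlinarith
  have hD : ((b ^ (m + j) : ℕ) : ℝ) * Real.exp (-(δ' / 2 * ℓ * m)) =
      B * (A * Real.exp (δ' / 2 * ℓ * m)) := by
    push_cast
    rw [pow_add, hA, hB, ← Real.rpow_natCast (b : ℝ) m, pow_eq_exp hb, pow_eq_exp hb,
      ← Real.exp_add, mul_comm (Real.exp _) ((b : ℝ) ^ j), mul_assoc, ← Real.exp_add]
    congr 2
    ring
  have h3 := hU3 m (by omega)
  set T : ℝ := Real.exp (δ' / 2 * ℓ * m) with hT
  by_cases hqm : (m : ℝ) ≤ |(q : ℝ)|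
  · have key := hU2 m (by omega) (b ^ (n + m + j)) (b ^ (m + j)) (SU_pow hb _) (SU_pow hb _)
      (Nat.pow_le_pow_right (by omega) (by omega)) hu q M hqm (by
        refine hqC.trans (Real.exp_le_exp.2 ?_)
        have : 0 ≤ (2 * |C| + 1) * ℓ * m := by positivity
        have := mul_le_mul_of_nonneg_right (le_abs_self C) hm0
        nlinarith)
    simp only [sub_zero, Finset.univ_unique, Finset.prod_singleton, add_zero] at key
    rw [hD] at key
    have h5 : |(q : ℝ)| * |α * q - round (α * q)| ≤ K :=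
      (mul_le_mul_of_nonneg_left (round_le _ _) (abs_nonneg _)).trans hqp
    have h6 : 1 + |x * ((b ^ (n + m + j) : ℕ) : ℝ) - ((b ^ (m + j) : ℕ) : ℝ) * M - η * q| ≤
        B * (2 + K + X) := by
      have e1 := abs_add_le (x * ((b ^ (n + m + j) : ℕ) : ℝ) -
        ((b ^ (m + j) : ℕ) : ℝ) * M - z) (z - η * q)
      rw [sub_add_sub_cancel] at e1
      nlinarith
    have h7 : B * (A * T) ≤ B * (2 + K + X) * K := by
      refine key.trans (mul_le_mul h6 h5 (by positivity) ?_)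
      have : 0 ≤ X := abs_nonneg _
      positivity
    have h8 : A * T ≤ (2 + K + X) * K := by
      refine le_of_mul_le_mul_left (a := B) ?_ (by linarith)
      linarith
    have h9 : (2 + K + X) * K ≤ A * ((3 + K) * K) := by
      have e1 : 2 + K + X ≤ A * (3 + K) := by nlinarith
      nlinarith
    have h10 : T ≤ (3 + K) * K := by
      refine le_of_mul_le_mul_left (a := A) ?_ (by linarith)
      linarith
    have h11 := abs_nonneg η
    have h12 : 0 ≤ ((3 + K) * K + 3 + K + |η|) * (m : ℝ) := by positivity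
    have h13 : ((3 + K) * K + 3 + K + |η|) * ((m : ℝ) + 1) =
      ((3 + K) * K + 3 + K + |η|) * (m : ℝ) + ((3 + K) * K + 3 + K + |η|) := by ring
    linarith
  · push Not at hqm
    have key := hU1 m (by omega) (b ^ (n + m + j)) (b ^ (m + j)) (SU_pow hb _) (SU_pow hb _)
      (Nat.pow_le_pow_right (by omega) (by omega)) hu M
    rw [hD] at key
    have h5 : |z| ≤ K + |η| * m := by
      have e1 := abs_add_le (z - η * q) (η * q)
      rw [sub_add_cancel, abs_mul] at e1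
      have := mul_le_mul_of_nonneg_left hqm.le (abs_nonneg η)
      linarith
    have h6 : |x * ((b ^ (n + m + j) : ℕ) : ℝ) - ((b ^ (m + j) : ℕ) : ℝ) * M| ≤
        B * (X + 1 + K + |η| * m) := by
      have e1 := abs_add_le (x * ((b ^ (n + m + j) : ℕ) : ℝ) -
        ((b ^ (m + j) : ℕ) : ℝ) * M - z) z
      rw [sub_add_cancel] at e1
      have e2 : 0 ≤ |η| * m := by positivity
      nlinarith
    have h7 : A * T ≤ X + 1 + K + |η| * m := by
      refine le_of_mul_le_mul_left (a := B) ?_ (by linarith)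
      linarith
    have e2 : 0 ≤ |η| * m := by positivity
    have h8 : X + 1 + K + |η| * m ≤ A * (2 + K + |η| * m) := by nlinarith
    have h9 : T ≤ 2 + K + |η| * m := by
      refine le_of_mul_le_mul_left (a := A) ?_ (by linarith)
      linarith
    have h11 := abs_nonneg η
    have h10 : 0 ≤ (3 + K) * K := by positivity
    have h12 : 0 ≤ ((3 + K) * K + 3 + K) * (m : ℝ) := by positivity
    have h13 : ((3 + K) * K + 3 + K + |η|) * ((m : ℝ) + 1) =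
      ((3 + K) * K + 3 + K) * (m : ℝ) + |η| * m + ((3 + K) * K + 3 + K + |η|) := by ring
    linarith

end Pool.Agent.U773.DB
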