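import Mathlib
import Pool.Agent.U773.DB.Digits

/-! Powers of quadratic units. -/

set_option autoImplicit false

open Finset Filter Topology

namespace Pool.Agent.U773.DB

open Pool.Agent.TH419.WI Pool.Agent.N671.OPN Pool.Agent.U773.SF Pool.Agent.U773.WN
  Pool.Agent.U773.RS Pool.Agent.U773.BD

lemma pow_coords {l l' : ℝ} {t n : ℤ} (h : l ^ 2 = t * l - n) (h' : l' ^ 2 = t * l' - n) (k : ℕ) :
    ∃ a b : ℤ, l ^ k = a * l + b ∧ l' ^ k = a * l' + b := by
  induction k with
  | zero => exact ⟨0, 1, by simp, by simp⟩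
  | succ k ih =>
    obtain ⟨a, b, h1, h2⟩ := ih
    refine ⟨a * t + b, -(a * n), ?_, ?_⟩
    · rw [pow_succ, h1]
      push_cast
      linear_combination (a : ℝ) * h
    · rw [pow_succ, h2]
      push_cast
      linear_combination (a : ℝ) * h'

theorem units {x l : ℝ} (hx : IsAlgebraic ℚ x) (hxi : Irrational x) {t n : ℤ}
    (hl : l ^ 2 = t * l - n) (hn : n = 1 ∨ n = -1) (hl1 : 1 < l) (hli : Irrational l) (c : ℝ)
    (hc : IsAlgebraic ℚ c) {b : ℕ} (hb : 2 ≤ b) (C δ : ℝ) (hδ : 0 < δ) :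
    ∃ U : ℕ, ∀ m : ℕ, U ≤ m → ∀ n j k : ℕ, (n : ℝ) ≤ C * m → (j : ℝ) ≤ C * m →
      (k : ℝ) ≤ C * m →
      (b : ℝ) ^ ((1 - δ) * (m : ℝ)) ≤
        |(blk b x n m : ℝ) - ((⌊c * l ^ k / (b : ℝ) ^ j⌋ % (b : ℤ) ^ m : ℤ) : ℝ)| := by
  set l' : ℝ := t - l with hl'
  have hl'2 : l' ^ 2 = t * l' - n := by
    rw [hl']
    linear_combination hl
  have hprod : l * l' = n := by
    rw [hl']
    linear_combination -hl
  have hnabs : |(n : ℝ)| = 1 := by
    rcases hn with h | h <;> simp [h]
  have hl'abs : |l'| * l = 1 := by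
    have h1 : |l * l'| = 1 := by rw [hprod]; exact hnabs
    rw [abs_mul, abs_of_pos (by linarith : 0 < l)] at h1
    linarith
  have hlalg : IsAlgebraic ℚ l := by
    refine ⟨Polynomial.X ^ 2 - Polynomial.C (t : ℚ) * Polynomial.X + Polynomial.C (n : ℚ), ?_, ?_⟩
    · intro h0
      have h1 := congrArg (fun P : Polynomial ℚ => P.eval 0 + P.eval 2 - 2 * P.eval 1) h0
      simp only [Polynomial.eval_add, Polynomial.eval_sub, Polynomial.eval_mul, Polynomial.eval_pow,
        Polynomial.eval_X, Polynomial.eval_C, Polynomial.eval_zero] at h1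
      norm_num at h1
      linarith
    · simp
      linarith
  have hl'alg : IsAlgebraic ℚ l' := by
    rw [hl']
    exact (isAlgebraic_intCast t).sub hlalg
  have hαi : Irrational (-l') := by
    rw [hl']
    have := hli.sub_intCast t
    have e1 : -((t : ℝ) - l) = l - t := by ring
    rw [e1]
    exact this
  have hne : l - l' ≠ 0 := by
    intro h0
    apply hli
    refine ⟨(t : ℚ) / 2, ?_⟩
    push_cast
    rw [hl'] at h0
    linarith
  have hnep : 0 < |l - l'| := abs_pos.2 hne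
  have hlogl : 0 < Real.log l := Real.log_pos hl1
  set C' : ℝ := |C| * Real.log l + |C| + 1 with hC'
  obtain ⟨U1, hU1⟩ := convergents hx hxi hl'alg.neg hαi (c * (l - l'))
    (hc.mul (hlalg.sub hl'alg)) hb (max |c| (2 / |l - l'|)) C' δ hδ
  obtain ⟨U2, hU2⟩ := lin_le (show (0 : ℝ) < 1 by norm_num) (2 / |l - l'|)
  refine ⟨U1 + U2, fun m hm n' j k hn' hj hk => ?_⟩
  have hm0 : (0 : ℝ) ≤ m := Nat.cast_nonneg _
  have hCm : C * m ≤ |C| * m := mul_le_mul_of_nonneg_right (le_abs_self C) hm0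
  have hCm' : |C| * m ≤ C' * m := by
    refine mul_le_mul_of_nonneg_right ?_ hm0
    have : 0 ≤ |C| * Real.log l := by positivity
    rw [hC']
    linarith
  obtain ⟨q, p, h1, h2⟩ := pow_coords hl hl'2 k
  have hdiff : (q : ℝ) * (l - l') = l ^ k - l' ^ k := by rw [h1, h2]; ring
  have hl'k : |l' ^ k| * l ^ k = 1 := by
    rw [abs_pow, ← mul_pow, hl'abs, one_pow]
  have hlk : 1 ≤ l ^ k := one_le_pow₀ hl1.le
  have hl'k1 : |l' ^ k| ≤ 1 := by
    have := abs_nonneg (l' ^ k)
    nlinarith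
  have e3 : |(q : ℝ)| ≤ 2 * l ^ k / |l - l'| := by
    rw [le_div_iff₀ hnep, ← abs_mul, hdiff]
    have := abs_sub (l ^ k) (l' ^ k)
    rw [abs_of_pos (by linarith : 0 < l ^ k)] at this
    linarith
  refine hU1 m (by omega) n' j (hn'.trans (hCm.trans hCm')) (hj.trans (hCm.trans hCm')) q p ?_ ?_
    (c * l ^ k) ?_
  · have e1 : -l' * (q : ℝ) - p = -(l' ^ k) := by rw [h2]; ring
    rw [e1, abs_neg]
    refine le_trans ?_ (le_max_right _ _)
    calc |(q : ℝ)| * |l' ^ k| ≤ (2 * l ^ k / |l - l'|) * |l' ^ k| :=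
          mul_le_mul_of_nonneg_right e3 (abs_nonneg _)
      _ = 2 * (|l' ^ k| * l ^ k) / |l - l'| := by ring
      _ = 2 / |l - l'| := by rw [hl'k, mul_one]
  · have h5 := hU2 m (by omega)
    have h6 : 2 / |l - l'| ≤ Real.exp (1 * m) := by
      refine le_trans ?_ h5
      have : 0 ≤ 2 / |l - l'| := by positivity
      nlinarith
    have h7 : l ^ k ≤ Real.exp (|C| * Real.log l * m) := by
      rw [← Real.exp_log (by linarith : 0 < l ^ k), Real.log_pow]
      apply Real.exp_le_exp.2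
      have := mul_le_mul_of_nonneg_right (hk.trans hCm) hlogl.le
      linarith
    calc |(q : ℝ)| ≤ 2 * l ^ k / |l - l'| := e3
      _ = (2 / |l - l'|) * l ^ k := by ring
      _ ≤ Real.exp (1 * m) * Real.exp (|C| * Real.log l * m) :=
          mul_le_mul h6 h7 (by linarith) (Real.exp_pos _).le
      _ ≤ Real.exp (C' * m) := by
          rw [← Real.exp_add]
          apply Real.exp_le_exp.2
          have : 0 ≤ |C| * m := by positivity
          rw [hC']
          linarith
  · refine le_trans ?_ (le_max_left _ _)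
    have e1 : c * l ^ k - c * (l - l') * q = c * l' ^ k := by
      have : c * (l - l') * q = c * (l ^ k - l' ^ k) := by
        rw [← hdiff]
        ring
      rw [this]
      ring
    rw [e1, abs_mul]
    exact mul_le_of_le_one_right (abs_nonneg c) hl'k1

end Pool.Agent.U773.DB
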