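import Mathlib
import Pool.Agent.U773.DB.Units

/-! The case of the square root of `2`. -/

set_option autoImplicit false

open Finset Filter Topology

namespace Pool.Agent.U773.DB

open Pool.Agent.TH419.WI Pool.Agent.N671.OPN Pool.Agent.U773.SF Pool.Agent.U773.WN
  Pool.Agent.U773.RS Pool.Agent.U773.BD

theorem pell {b : ℕ} (hb : 2 ≤ b) (K C δ : ℝ) (hδ : 0 < δ) :
    ∃ U : ℕ, ∀ m : ℕ, U ≤ m → ∀ n j : ℕ, (n : ℝ) ≤ C * m → (j : ℝ) ≤ C * m → ∀ p q : ℕ,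
      |(p : ℝ) ^ 2 - 2 * (q : ℝ) ^ 2| ≤ K → (q : ℝ) ≤ Real.exp (C * m) →
      (b : ℝ) ^ ((1 - δ) * (m : ℝ)) ≤
        |(blk b (√2) n m : ℝ) - ((⌊(q : ℝ) / (b : ℝ) ^ j⌋ % (b : ℤ) ^ m : ℤ) : ℝ)| ∧
      (b : ℝ) ^ ((1 - δ) * (m : ℝ)) ≤
        |(blk b (√2) n m : ℝ) - ((⌊(p : ℝ) / (b : ℝ) ^ j⌋ % (b : ℤ) ^ m : ℤ) : ℝ)| := by
  have halg : IsAlgebraic ℚ (√2) := by
    refine ⟨Polynomial.X ^ 2 - Polynomial.C 2, ?_, ?_⟩
    · exact Polynomial.X_pow_sub_C_ne_zero (by norm_num) 2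
    · simp
  have hs : √2 * √2 = 2 := Real.mul_self_sqrt (by norm_num)
  have hs1 : (1 : ℝ) ≤ √2 := by
    rw [Real.one_le_sqrt]
    norm_num
  obtain ⟨U1, hU1⟩ := convergents halg irrational_sqrt_two halg irrational_sqrt_two 1
    isAlgebraic_one hb K C δ hδ
  obtain ⟨U2, hU2⟩ := convergents halg irrational_sqrt_two halg irrational_sqrt_two (√2)
    halg hb K C δ hδ
  refine ⟨U1 + U2, fun m hm n j hn hj p q hpq hqC => ?_⟩
  have hK0 : 0 ≤ K := (abs_nonneg _).trans hpq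
  have hp0 : (0 : ℝ) ≤ p := Nat.cast_nonneg _
  have hq0 : (0 : ℝ) ≤ q := Nat.cast_nonneg _
  have h1 : (√2 * q + p) * |√2 * q - p| ≤ K := by
    have e1 : 0 ≤ √2 * q + p := by positivity
    rw [← abs_of_nonneg e1, ← abs_mul]
    have e2 : (|√2 * (q : ℝ) + p|) * (√2 * q - p) = (√2 * q + p) * (√2 * q - p) := by
      rw [abs_of_nonneg e1]
    have e3 : (√2 * (q : ℝ) + p) * (√2 * q - p) = -((p : ℝ) ^ 2 - 2 * (q : ℝ) ^ 2) := by
      linear_combination (q : ℝ) ^ 2 * hs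
    first
      | rw [e2, e3, abs_neg]
        exact hpq
      | rw [e3, abs_neg]
        exact hpq
  have h2 : |((q : ℤ) : ℝ)| * |√2 * ((q : ℤ) : ℝ) - ((p : ℤ) : ℝ)| ≤ K := by
    rw [Int.cast_natCast, Int.cast_natCast, abs_of_nonneg hq0]
    refine le_trans (mul_le_mul_of_nonneg_right ?_ (abs_nonneg _)) h1
    nlinarith
  have h3 : |((q : ℤ) : ℝ)| ≤ Real.exp (C * m) := by
    rw [Int.cast_natCast, abs_of_nonneg hq0]
    exact hqC
  refine ⟨hU1 m (by omega) n j hn hj q p h2 h3 q ?_, hU2 m (by omega) n j hn hj q p h2 h3 p ?_⟩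
  · simp [hK0]
  · rw [Int.cast_natCast, abs_sub_comm]
    rcases Nat.eq_zero_or_pos (q + p) with h | h
    · have hq' : q = 0 := by omega
      have hp' : p = 0 := by omega
      simp [hq', hp', hK0]
    · have e1 : (1 : ℝ) ≤ √2 * q + p := by
        have e2 : (1 : ℝ) ≤ q + p := by exact_mod_cast h
        nlinarith
      exact le_trans (le_mul_of_one_le_left (abs_nonneg _) e1) h1

end Pool.Agent.U773.DB
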